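import Mathlib
import Pool.Agent.H26.Link1

set_option autoImplicit false

open Pool.Agent.H26.Link

namespace Pool.Agent.Results.MP_0a1256_an.Counterexample

theorem result : ∃ (M : HM) (F : Sub M) (P : M.E → M.E), Tern F ∧ IdemOnto F P ∧
    (∀ x y z, P (ip y (P z) • P x) = ip (P y) (P z) • P x) ∧ ¬ Extends F P :=
  ⟨M0, F0, P0, tern0, idem0, ident0, not_ext P0⟩

end Pool.Agent.Results.MP_0a1256_an.Counterexample
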